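import Mathlib

/-!
# Squad PN: covers of `(P^1)^n`, jets of order `k`, node conditions, vector fields

The variables are the parameters `a l j` (`l < n`, `j < N`) and the jet coordinates `x l s`
(`s ≤ k`), where `x l s` is the `s`-th coefficient of the power series `x l`
(the `s`-th derivative divided by `s !`).
-/

set_option autoImplicit false

universe u v w

open MvPolynomial

namespace Pool.Agent.PN

/-- the variables -/
abbrev Sig (n N k : ℕ) := (Fin n × Fin N) ⊕ (Fin n × Fin (k + 1))

/-- the ring of families of differential polynomials -/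
abbrev Pol (n N k : ℕ) := MvPolynomial (Sig n N k) ℤ

section values

variable {n N k : ℕ} {R : Type*} [CommRing R]

/-- the values of the variables -/
noncomputable def vals (a : Fin n → Fin N → R) (x : Fin n → PowerSeries R) : Sig n N k → R :=
  Sum.elim (fun p => a p.1 p.2) (fun p => PowerSeries.coeff (p.2 : ℕ) (x p.1))

/-- evaluation -/
noncomputable def evP (a : Fin n → Fin N → R) (x : Fin n → PowerSeries R) : Pol n N k →ₐ[ℤ] R :=
  aeval (vals a x)

end values

/-- all monomials of `P` have `w`-weight at most `d` -/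
def Deg {V : Type*} {R : Type*} [CommSemiring R] (w : V → ℕ) (d : ℕ) (P : MvPolynomial V R) :
    Prop := ∀ s ∈ P.support, s.sum (fun v e => e * w v) ≤ d

/-- the degree in the jets of the coordinate `l` -/
def dw (n N k : ℕ) (l : Fin n) : Sig n N k → ℕ :=
  Sum.elim (fun _ => 0) (fun p => if p.1 = l then 1 else 0)

/-- the number of derivatives -/
def ww (n N k : ℕ) : Sig n N k → ℕ := Sum.elim (fun _ => 0) (fun p => (p.2 : ℕ))

/-- order `c * m'` at the strata of codimension `c ≥ 2`: if `x i = a i (j i) + η i * u` for `i ≠ i₀`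
in `I`, where `u = x i₀ - a i₀ (j i₀)` and `i₀` is the first element of `I` (equalities of the
coefficients up to order `k`), then the value is divisible by `u_0 ^ (c * m')`. -/
def Nod.{u₁} {n N k : ℕ} (m' : ℕ) (P : Pol n N k) : Prop :=
  ∀ (I : Finset (Fin n)) (i₀ : Fin n) (j : Fin n → Fin N), i₀ ∈ I → (∀ i ∈ I, i₀ ≤ i) →
    2 ≤ I.card → ∀ (R : Type u₁) [CommRing R] (a : Fin n → Fin N → R)
    (x η : Fin n → PowerSeries R),
    (∀ i ∈ I, i ≠ i₀ → ∀ s ≤ k, PowerSeries.coeff s (x i) =
      PowerSeries.coeff s (PowerSeries.C (a i (j i)) + η i * (x i₀ - PowerSeries.C (a i₀ (j i₀))))) →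
    (PowerSeries.constantCoeff (x i₀) - a i₀ (j i₀)) ^ (I.card * m') ∣ evP a x P

/-- the class of families of order `c * m'` at the strata of codimension `c`, of degree at most `d`
in each coordinate, with at most `m` derivatives -/
structure Cls.{u₁} {n N k : ℕ} (m' d m : ℕ) (P : Pol n N k) : Prop where
  deg : ∀ l, Deg (dw n N k l) d P
  wt : Deg (ww n N k) m P
  nod : Nod.{u₁} m' P

section fields

variable {n N k : ℕ}

/-- the generic power series (a polynomial of degree `k`) of the coordinate `l` -/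
noncomputable def gen (l : Fin n) : PowerSeries (Pol n N k) :=
  PowerSeries.mk fun s => if h : s < k + 1 then X (Sum.inr (l, ⟨s, h⟩)) else 0

/-- the vector field `x l ↦ x l + ε (x l) ^ r`, `a l j ↦ a l j + ε (a l j) ^ r` -/
noncomputable def T (l : Fin n) (r : ℕ) : Derivation ℤ (Pol n N k) (Pol n N k) :=
  mkDerivation ℤ (Sum.elim (fun p => if p.1 = l then X (Sum.inl p) ^ r else 0)
    (fun p => if p.1 = l then PowerSeries.coeff (p.2 : ℕ) (gen l ^ r) else 0))

/-- the vector field `(x l 0 - a l j) ^ (k + 1) ∂ / ∂ (a l j)` -/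
noncomputable def A (l : Fin n) (j : Fin N) : Derivation ℤ (Pol n N k) (Pol n N k) :=
  mkDerivation ℤ (Sum.elim
    (fun p => if p = (l, j) then (X (Sum.inr (l, 0)) - X (Sum.inl (l, j))) ^ (k + 1) else 0)
    (fun _ => 0))

/-- the Taylor expansion at the point `p` -/
noncomputable def taylor {V E : Type*} [Field E] (p : V → E) :
    MvPolynomial V ℤ →ₐ[ℤ] MvPolynomial V E :=
  aeval (fun v => C (p v) + X v)

end fields

section existence

/-- the number of the jet factors of the coordinate `l` -/
def Aof {n k : ℕ} (b : Fin n × Fin (k + 1) → ℕ) (l : Fin n) : ℕ := ∑ s : Fin k, b (l, s.succ)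

/-- the number of derivatives -/
def wtof {n k : ℕ} (b : Fin n × Fin (k + 1) → ℕ) : ℕ :=
  ∑ l, ∑ s : Fin k, ((s : ℕ) + 1) * b (l, s.succ)

/-- the exponents of the building blocks -/
noncomputable def US (n N k m δ B : ℕ) : Finset (Fin n × Fin (k + 1) → ℕ) := by
  classical
  exact (Fintype.piFinset fun _ => Finset.range ((N + n + 2) * m + 1)).filter
    (fun b => wtof b = m ∧ ∀ l, b (l, 0) + B ≤ N * (Aof b l - δ))

/-- the exponents of the monomials which must not occur at the stratum `I`; `i₀` is the first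
element of `I` -/
noncomputable def CS (n N k m δ B : ℕ) (I : Finset (Fin n)) (i₀ : Fin n) :
    Finset (Fin n × Fin (k + 1) → ℕ) := by
  classical
  exact (Fintype.piFinset fun _ => Finset.range ((N + n + 2) * m + 1)).filter
    (fun e => wtof e = m ∧ (∀ l ∉ I, e (l, 0) + B ≤ N * (Aof e l - δ)) ∧
      e (i₀, 0) < I.card * (m - δ) ∧ I.card * m ≤ e (i₀, 0) + Aof e i₀ ∧
      (∀ i ∈ I, i ≠ i₀ → m ≤ e (i, 0) + Aof e i) ∧
      m + ∑ i ∈ I.erase i₀, (e (i, 0) + Aof e i) ≤ e (i₀, 0) + Aof e i₀)

/-- the product of the `x l 0 - a l j` -/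
noncomputable def ff {n N k : ℕ} (l : Fin n) : Pol n N k :=
  ∏ j : Fin N, (X (Sum.inr (l, 0)) - X (Sum.inl (l, j)))

/-- the building block: the product of the powers of the jet coordinates given by `b`, and of
`ff l ^ (m - Aof b l)` for `l` in `S` -/
noncomputable def blk {n N k : ℕ} (m : ℕ) (S : Finset (Fin n)) (b : Fin n × Fin (k + 1) → ℕ) :
    Pol n N k := (∏ p, X (Sum.inr p) ^ b p) * ∏ l ∈ S, ff l ^ (m - Aof b l)

/-- the substitution `x i₀ = a i₀ (j i₀) + u`, `x i = a i (j i) + η i * u`; the variables of the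
target are named as those of the source (`u` is the series of the coordinate `i₀`) -/
noncomputable def psi {n N k : ℕ} (I : Finset (Fin n)) (i₀ : Fin n) (j : Fin n → Fin N) :
    Pol n N k →ₐ[ℤ] Pol n N k := by
  classical
  exact aeval (Sum.elim (fun p => X (Sum.inl p))
    (fun p => if p.1 = i₀ then
        PowerSeries.coeff (p.2 : ℕ) (PowerSeries.C (X (Sum.inl (i₀, j i₀))) + gen i₀)
      else if p.1 ∈ I then
        PowerSeries.coeff (p.2 : ℕ) (PowerSeries.C (X (Sum.inl (p.1, j p.1))) + gen p.1 * gen i₀)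
      else X (Sum.inr p)))

/-- the number of derivatives of a jet exponent -/
def jwt {n k : ℕ} (α : Fin n × Fin k → ℕ) : ℕ := ∑ l, ∑ s : Fin k, ((s : ℕ) + 1) * α (l, s)

/-- the number of factors of the coordinate `l` -/
def jA {n k : ℕ} (α : Fin n × Fin k → ℕ) (l : Fin n) : ℕ := ∑ s : Fin k, α (l, s)

/-- the jet exponents of weight `m` -/
noncomputable def JS (n k m : ℕ) : Finset (Fin n × Fin k → ℕ) := by
  classical
  exact (Fintype.piFinset fun _ => Finset.range (m + 1)).filter (fun α => jwt α = m)

/-- leading coefficient of the number of the unknowns -/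
noncomputable def uu (n k m δ : ℕ) : ℕ := ∑ α ∈ JS n k m, ∏ l, (jA α l - δ)

/-- leading coefficient of the number of the conditions at a stratum -/
noncomputable def cc (n k m δ : ℕ) (I : Finset (Fin n)) (i₀ : Fin n) : ℕ := by
  classical
  exact ∑ α ∈ JS n k m, (jA α i₀ - I.card * δ + I.card - 1).choose I.card *
    ∏ l ∈ Iᶜ, (jA α l - δ)

end existence

end Pool.Agent.PN
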