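import Mathlib
import Pool.Agent.Helper50_PN.Defs
import Pool.Agent.Helper11_PGL.StmtG

/-!
# Squad PN: statements

Text: `/team-store/PAPER_PN.md`.
-/

set_option autoImplicit false

universe u v w

open MvPolynomial PGH PGL

namespace Pool.Agent.PN

/-! ## Part 1: vector fields -/

/-- DGR: a derivation which raises the weight of each variable by at most `e` raises the weight by
at most `e` -/
def DgrStmt : Prop :=
  ∀ {V : Type} [DecidableEq V] (w : V → ℕ) (δ : Derivation ℤ (MvPolynomial V ℤ) (MvPolynomial V ℤ))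
    (e : ℕ), (∀ v, Deg w (w v + e) (δ (X v))) → ∀ (n : ℕ) (P : MvPolynomial V ℤ), Deg w n P →
    Deg w (n + e) (δ P)

/-- CLD: degrees and weights under the vector fields -/
def CldStmt : Prop :=
  ∀ (n N k d m : ℕ) (P : Pol n N k), (∀ l, Deg (dw n N k l) d P) → Deg (ww n N k) m P →
    (∀ l r, r ≤ k → (∀ l', Deg (dw n N k l') (d + (k + 1)) (T l r P)) ∧
      Deg (ww n N k) m (T l r P)) ∧
    ∀ l j, (∀ l', Deg (dw n N k l') (d + (k + 1)) (A l j P)) ∧ Deg (ww n N k) m (A l j P)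

/-- CLN: the vector fields `T` keep the order at the strata -/
def ClnStmt : Prop :=
  ∀ (n N k m' : ℕ) (P : Pol n N k), Nod.{u} m' P → ∀ l r, Nod.{u} m' (T l r P)

/-- CLM: the vector fields `A` keep the order at the strata -/
def ClmStmt : Prop :=
  ∀ (n N k m' : ℕ) (P : Pol n N k), Nod.{u} m' P → ∀ l j, Nod.{u} m' (A l j P)

/-- CLO: closure of the classes -/
def CloStmt : Prop :=
  ∀ (n N k m' d m : ℕ) (P : Pol n N k), Cls.{u} m' d m P →
    (∀ l r, r ≤ k → Cls.{u} m' (d + (k + 1)) m (T l r P)) ∧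
    ∀ l j, Cls.{u} m' (d + (k + 1)) m (A l j P)

/-- DET: the powers of a series with nonzero coefficient of order one -/
def DetStmt : Prop :=
  ∀ {E : Type u} [Field E] (k : ℕ) (x : PowerSeries E), PowerSeries.coeff 1 x ≠ 0 →
    (Matrix.of fun r s : Fin (k + 1) => PowerSeries.coeff (s : ℕ) (x ^ (r : ℕ))).det ≠ 0

/-- SPA: the vector fields span the tangent space -/
def SpaStmt : Prop :=
  ∀ {E : Type u} [Field E] [CharZero E] (n N k : ℕ) (a : Fin n → Fin N → E)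
    (x : Fin n → PowerSeries E), (∀ l, PowerSeries.coeff 1 (x l) ≠ 0) →
    (∀ l j, PowerSeries.coeff 0 (x l) ≠ a l j) → ∀ v : Sig n N k,
    ∃ c : (Fin n × Fin (k + 1)) ⊕ (Fin n × Fin N) →₀ E, ∀ w : Sig n N k,
      c.sum (fun τ e => e * evP a x
        (Sum.elim (fun p => T p.1 (p.2 : ℕ)) (fun p => A p.1 p.2) τ (X w))) =
        if w = v then 1 else 0

/-- SPN: if a filtered set of polynomials is stable under vector fields which span the tangent space
at `p`, and vanishes at `p`, then it vanishes to high order at `p` -/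
def SpnStmt : Prop :=
  ∀ {V K : Type} [Fintype V] [DecidableEq V] {E : Type u} [Field E] [CharZero E] (p : V → E)
    (𝒱 : ℕ → Set (MvPolynomial V ℤ)) (δ : K → Derivation ℤ (MvPolynomial V ℤ) (MvPolynomial V ℤ))
    (κ Dm : ℕ),
    (∀ t e Q, Q ∈ 𝒱 e → δ t Q ∈ 𝒱 (e + κ)) →
    (∀ e Q, e ≤ Dm → Q ∈ 𝒱 e → aeval p Q = 0) →
    (∀ v, ∃ l : K →₀ E, ∀ w, l.sum (fun t c => c * aeval p (δ t (X w))) = if w = v then 1 else 0) →
    ∀ n e Q, e + κ * n ≤ Dm → Q ∈ 𝒱 e →
      ∀ s : V →₀ ℕ, s.degree ≤ n → (taylor p Q).coeff s = 0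

/-- VER: a polynomial of weight at most `m` which vanishes to order `m + 1` at a point vanishes
at all points with the same parameters and coordinates of order zero -/
def VerStmt : Prop :=
  ∀ {E : Type u} [Field E] (n N k m : ℕ) (P : Pol n N k), Deg (ww n N k) m P →
    ∀ (p q : Sig n N k → E), (∀ y, p (Sum.inl y) = q (Sum.inl y)) →
      (∀ l, p (Sum.inr (l, 0)) = q (Sum.inr (l, 0))) →
      (∀ s : Sig n N k →₀ ℕ, s.degree ≤ m → (taylor p P).coeff s = 0) → aeval q P = 0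

/-- COE: the vanishing at all jets gives the vanishing of a coefficient -/
def CoeStmt : Prop :=
  ∀ (n N k : ℕ) (P : Pol n N k), P ≠ 0 →
    ∃ F : MvPolynomial ((Fin n × Fin N) ⊕ Fin n) ℤ, F ≠ 0 ∧
    ∀ {E : Type u} [Field E] [CharZero E] (a : Fin n → Fin N → E) (y : Fin n → E),
      (∀ q : Sig n N k → E, (∀ l j, q (Sum.inl (l, j)) = a l j) →
        (∀ l, q (Sum.inr (l, 0)) = y l) → aeval q P = 0) →
      aeval (Sum.elim (fun p => a p.1 p.2) y) F = 0

/-- EXI: existence of a family with the reserve `B` -/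
def ExiStmt : Prop :=
  ∀ n, 2 ≤ n → ∃ k m m' : ℕ, 1 ≤ k ∧ 1 ≤ m' ∧ ∀ B : ℕ, ∃ N₀ : ℕ, ∀ N, N₀ ≤ N →
    B ≤ N * m' ∧ ∃ P : Pol n N k, P ≠ 0 ∧ Cls.{u} m' (N * m' - B) m P

/-- JET: the consequence of the existence and of the vector fields -/
def JetStmt : Prop :=
  ∀ n, 2 ≤ n → ∃ k m m' B : ℕ, 1 ≤ k ∧ 1 ≤ m' ∧ m + (6 + n) * m' + 1 ≤ B ∧
    ∃ N₀ : ℕ, ∀ N, N₀ ≤ N → B ≤ N * m' ∧
    ∃ F : MvPolynomial ((Fin n × Fin N) ⊕ Fin n) ℤ, F ≠ 0 ∧
    ∀ {E : Type u} [Field E] [CharZero E] (a : Fin n → Fin N → E) (x : Fin n → PowerSeries E),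
      (∀ l, PowerSeries.coeff 1 (x l) ≠ 0) → (∀ l j, PowerSeries.coeff 0 (x l) ≠ a l j) →
      (∀ Q : Pol n N k, Cls.{u} m' (N * m' - B) m Q → evP a x Q = 0) →
      aeval (Sum.elim (fun p => a p.1 p.2) (fun l => PowerSeries.coeff 0 (x l))) F = 0

/-! ## Part 2: existence -/

/-- the series `1 / (1 - z ^ j)` -/
def geo (j : ℕ) : PowerSeries ℕ := PowerSeries.mk fun s => if j ∣ s then 1 else 0

/-- the product of the `geo (s + 1)` for `s + 1 < k` -/
noncomputable def GG (k : ℕ) : PowerSeries ℕ := ∏ s : Fin (k - 1), geo ((s : ℕ) + 1)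

/-- the series `z / (1 - z) ^ 2` -/
def VV : PowerSeries ℕ := PowerSeries.mk fun t => t

/-- the generating function of the unknowns -/
noncomputable def UU (n k : ℕ) : PowerSeries ℕ := (VV * GG k) ^ n

/-- the generating function of the conditions in codimension `c` -/
noncomputable def CC (n k c : ℕ) : PowerSeries ℕ :=
  PowerSeries.mk (fun T => (T + c - 1).choose c) * GG k * (GG k * geo k) ^ (c - 1) *
    (VV * GG k) ^ (n - c)

/-- NUA: the inequality for the generating functions -/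
def NuaStmt : Prop :=
  ∀ n, 2 ≤ n → ∃ k σ : ℕ, 1 ≤ k ∧
    ∑ c ∈ Finset.Icc 2 n, n.choose c * PowerSeries.coeff σ (CC n k c) <
      PowerSeries.coeff σ (UU n k)

/-- NUB: the unknowns -/
def NubStmt : Prop :=
  ∀ n k σ δ : ℕ, 1 ≤ k → σ ≤ δ → PowerSeries.coeff σ (UU n k) ≤ uu n k (n * δ + σ) δ

/-- NUC: the conditions -/
def NucStmt : Prop :=
  ∀ (n k σ δ : ℕ) (I : Finset (Fin n)) (i₀ : Fin n), 1 ≤ k → i₀ ∈ I →
    cc n k (n * δ + σ) δ I i₀ ≤ PowerSeries.coeff σ (CC n k I.card)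

/-- NUM: the numerical inequality, leading coefficients -/
def NumStmt : Prop :=
  ∀ n, 2 ≤ n → ∃ k m δ : ℕ, 1 ≤ k ∧ δ < m ∧
    ∑ I ∈ (Finset.univ : Finset (Finset (Fin n))).filter (fun I => 2 ≤ I.card),
      (if h : I.Nonempty then cc n k m δ I (I.min' h) else 0) < uu n k m δ

/-- CNU: lower bound for the number of the unknowns -/
def CnuStmt : Prop :=
  ∀ n N k m δ B : ℕ, 1 ≤ B → B ≤ N → (N - B) ^ n * uu n k m δ ≤ (US n N k m δ B).card

/-- CNC: upper bound for the number of the conditions -/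
def CncStmt : Prop :=
  ∀ (n N k m δ B : ℕ) (I : Finset (Fin n)) (i₀ : Fin n), 1 ≤ B → i₀ ∈ I → δ ≤ m →
    (CS n N k m δ B I i₀).card ≤ N ^ (n - I.card) * cc n k m δ I i₀

/-- BLK: degrees and independence of the building blocks -/
def BlkStmt : Prop :=
  ∀ n N k m δ B : ℕ, δ ≤ m → 1 ≤ B → B ≤ N * (m - δ) →
    (∀ b ∈ US n N k m δ B, (∀ l, Deg (dw n N k l) (N * (m - δ) - B + m) (blk m Finset.univ b)) ∧
      Deg (ww n N k) m (blk (N := N) m Finset.univ b)) ∧
    ∀ c : (Fin n × Fin (k + 1) → ℕ) → MvPolynomial (Fin n × Fin N) ℤ,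
      ∑ b ∈ US n N k m δ B, rename Sum.inl (c b) * blk m Finset.univ b = (0 : Pol n N k) →
      ∀ b ∈ US n N k m δ B, c b = 0

/-- EXP: the monomials which occur in the substitution of a block (without the factors outside
the stratum) -/
def ExpStmt : Prop :=
  ∀ (n N k m δ B : ℕ) (I : Finset (Fin n)) (i₀ : Fin n) (j : Fin n → Fin N), i₀ ∈ I →
    2 ≤ I.card → δ ≤ m → 1 ≤ B → ∀ b ∈ US n N k m δ B, ∀ s ∈ (psi I i₀ j (blk m I b)).support,
      s (Sum.inr (i₀, 0)) < I.card * (m - δ) →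
      (fun p => s (Sum.inr p)) ∈ CS n N k m δ B I i₀ ∧
      ∀ l ∉ I, Aof (fun p => s (Sum.inr p)) l = Aof b l

/-- PSI: divisibility after the substitution gives the order at the strata -/
def PsiStmt : Prop :=
  ∀ (n N k m' : ℕ) (P : Pol n N k),
    (∀ (I : Finset (Fin n)) (i₀ : Fin n) (j : Fin n → Fin N), i₀ ∈ I → (∀ i ∈ I, i₀ ≤ i) →
      2 ≤ I.card → X (Sum.inr (i₀, 0)) ^ (I.card * m') ∣ psi I i₀ j P) → Nod.{u} m' P

/-! ## Part 3: places -/

/-- the series `exp (t D) y` -/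
noncomputable def hs {E : Type*} [Field E] (D : Derivation ℤ E E) (y : E) : PowerSeries E :=
  PowerSeries.mk fun s => (⇑D)^[s] y / (s.factorial : E)

/-- HSD: `exp (t D)` is a ring homomorphism -/
def HsdStmt : Prop :=
  ∀ {E : Type u} [Field E] [CharZero E] (D : Derivation ℤ E E),
    hs D 1 = 1 ∧ (∀ y z, hs D (y * z) = hs D y * hs D z) ∧
    (∀ y z, hs D (y + z) = hs D y + hs D z) ∧ ∀ y, D y = 0 → hs D y = PowerSeries.C y

/-- EVP: lower bound for the order at any place; `ρ l` is a bound for the pole of `x l` -/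
def EvpStmt : Prop :=
  ∀ {k E : Type u} [Field k] [IsAlgClosed k] [CharZero k] [Field E] [CharZero E] [Algebra k E]
    (P : Place k E) (D : Derivation ℤ E E) (cp : ℕ), DGe P D (-(cp : ℤ)) →
    ∀ (n N q m' d m : ℕ) (a : Fin n → Fin N → k) (x : Fin n → E) (ρ : Fin n → ℕ),
    (∀ l, P.Ge (-(ρ l : ℤ)) (x l)) → ∀ Q : Pol n N q, Cls.{u} m' d m Q →
    P.Ge (-(((d + m) * ∑ l, ρ l + 2 * m * cp : ℕ) : ℤ))
      (evP (fun l j => algebraMap k E (a l j)) (fun l => hs D (x l)) Q)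

/-- EVN: order at the good places of the strata -/
def EvnStmt : Prop :=
  ∀ {k E : Type u} [Field k] [IsAlgClosed k] [CharZero k] [Field E] [CharZero E] [Algebra k E]
    (P : Place k E) (D : Derivation ℤ E E), DGe P D 0 →
    ∀ (n N q m' d m : ℕ) (a : Fin n → Fin N → k) (x : Fin n → E),
    (∀ l j, D (algebraMap k E (a l j)) = 0) → (∀ l, P.Ge 0 (x l)) →
    ∀ (I : Finset (Fin n)) (j : Fin n → Fin N), 2 ≤ I.card →
    (∀ i ∈ I, P.ord (x i - algebraMap k E (a i (j i))) = 1) →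
    ∀ Q : Pol n N q, Cls.{u} m' d m Q →
    P.Ge (I.card * m') (evP (fun l j => algebraMap k E (a l j)) (fun l => hs D (x l)) Q)

open Classical in
/-- the coordinates which take one of the values `a l j` with multiplicity one -/
noncomputable def Is {k E : Type*} [Field k] [Field E] [Algebra k E] {n N : ℕ}
    (a : Fin n → Fin N → k) (x : Fin n → E) (P : Place k E) : Finset (Fin n) :=
  Finset.univ.filter fun l => ∃ j, P.ord (x l - algebraMap k E (a l j)) = 1

/-- RAM: the ramification estimate -/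
def RamStmt : Prop :=
  ∀ {k E : Type u} [Field k] [IsAlgClosed k] [CharZero k] [Field E] [Algebra k E] [FF k E]
    (D : Derivation ℤ E E) (cp : Place k E → ℕ) (sc : Finset (Place k E)),
    (∀ P ∉ sc, cp P = 0) → (∀ P, DGe P D (-(cp P : ℤ))) →
    ∀ (N : ℕ) (a : Fin N → k) (x : E), Function.Injective a →
    (∀ c : k, D (algebraMap k E c) = 0) → D x ≠ 0 → ∀ s : Finset (Place k E),
      ∑ P ∈ s, ∑ j, max 0 (P.ord (x - algebraMap k E (a j)) - 1) ≤
      2 * (ht k x : ℤ) + ∑ P ∈ sc, (cp P : ℤ)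

/-- CNT: counting the places of the strata.  At a place outside `sb` where all coordinates are
regular it does not happen that exactly one of the `x l - a l j` vanishes, and of order one. -/
def CntStmt : Prop :=
  ∀ {k E : Type u} [Field k] [IsAlgClosed k] [CharZero k] [Field E] [Algebra k E] [FF k E]
    (D : Derivation ℤ E E) (cp : Place k E → ℕ) (sc sb : Finset (Place k E)),
    (∀ c : k, D (algebraMap k E c) = 0) →
    (∀ P ∉ sc, cp P = 0) → (∀ P, DGe P D (-(cp P : ℤ))) →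
    ∀ (n N : ℕ) (a : Fin n → Fin N → k) (x : Fin n → E), (∀ l, Function.Injective (a l)) →
    (∀ l, D (x l) ≠ 0) →
    (∀ P ∉ sb, (∀ l, P.Ge 0 (x l)) → ∀ l j, P.ord (x l - algebraMap k E (a l j)) = 1 →
      ∃ l' j', (l', j') ≠ (l, j) ∧ P.Ge 1 (x l' - algebraMap k E (a l' j'))) →
    ∃ sn : Finset (Place k E), (∀ P ∈ sn, cp P = 0 ∧ (∀ l, P.Ge 0 (x l)) ∧ 2 ≤ (Is a x P).card) ∧
      ((N : ℤ) - 6 - n) * ∑ l, (ht k (x l) : ℤ) ≤ ∑ P ∈ sn, ((Is a x P).card : ℤ) +
        4 * n * ∑ P ∈ sc, (cp P : ℤ) + sb.card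

/-- HGT: the height inequality for a family which does not vanish -/
def HgtStmt : Prop :=
  ∀ {k E : Type u} [Field k] [IsAlgClosed k] [CharZero k] [Field E] [CharZero E] [Algebra k E]
    [FF k E] (D : Derivation ℤ E E) (cp : Place k E → ℕ) (sc sb : Finset (Place k E)),
    (∀ c : k, D (algebraMap k E c) = 0) →
    (∀ P ∉ sc, cp P = 0) → (∀ P, DGe P D (-(cp P : ℤ))) →
    ∀ (n N q m' B m : ℕ) (a : Fin n → Fin N → k) (x : Fin n → E),
    (∀ l, Function.Injective (a l)) → (∀ l, D (x l) ≠ 0) →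
    (∀ P ∉ sb, (∀ l, P.Ge 0 (x l)) → ∀ l j, P.ord (x l - algebraMap k E (a l j)) = 1 →
      ∃ l' j', (l', j') ≠ (l, j) ∧ P.Ge 1 (x l' - algebraMap k E (a l' j'))) →
    m + (6 + n) * m' + 1 ≤ B → B ≤ N * m' →
    ∀ Q : Pol n N q, Cls.{u} m' (N * m' - B) m Q →
    evP (fun l j => algebraMap k E (a l j)) (fun l => hs D (x l)) Q ≠ 0 →
    ∑ l, (ht k (x l) : ℤ) ≤ (2 * m + 4 * n * m') * ∑ P ∈ sc, (cp P : ℤ) + m' * sb.card

/-! ## Part 4: the step -/

/-- A product step from the subfield `F` to the subfield `F'` of `M`, relative to the field of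
constants `K`: `x 0, …, x (n - 1)` are algebraically independent over `K`, the `a l j` are elements
of `K` at which the polynomial `Φ n N` does not vanish, where `N ≥ N₀ n`; for each `r` the product
of the `(x l - a l j) ^ e l j r` is of the form `b r * z r ^ m r` with `b r` in `F`; for every
single `(l, j)` some `m r` does not divide `e l j r`; and `F'` contains `F` and is algebraic over
the field generated by `F` and the `x l`. -/
structure ProdStep {M : Type*} [Field M] (N₀ : ℕ → ℕ)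
    (Φ : ∀ n N : ℕ, MvPolynomial (Fin n × Fin N) ℤ) (K F F' : Subfield M) : Prop where
  le : F ≤ F'
  step : ∃ (n N R : ℕ) (x : Fin n → M) (a : Fin n → Fin N → M) (e : Fin n → Fin N → Fin R → ℤ)
    (m : Fin R → ℕ) (b z : Fin R → M), N₀ n ≤ N ∧
    (∀ p : MvPolynomial (Fin n) K, eval₂ K.subtype x p = 0 → p = 0) ∧ (∀ l j, a l j ∈ K) ∧
    aeval (fun p : Fin n × Fin N => a p.1 p.2) (Φ n N) ≠ 0 ∧
    (∀ r, b r ∈ F ∧ b r ≠ 0 ∧ ∏ l, ∏ j, (x l - a l j) ^ e l j r = b r * z r ^ m r) ∧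
    (∀ l j, ∃ r, ¬ (m r : ℤ) ∣ e l j r) ∧
    ∀ w ∈ F', IsAlgebraic (Subfield.closure ((F : Set M) ∪ Set.range x)) w

/-- GOO: the data of a product step give good elements -/
def GooStmt : Prop :=
  ∃ (N₀ : ℕ → ℕ) (Φ : ∀ n N : ℕ, MvPolynomial (Fin n × Fin N) ℤ),
    (∀ n N, N₀ n ≤ N → Φ n N ≠ 0) ∧
    ∀ {k M : Type u} [Field k] [Field M] [Algebra k M] [IsAlgClosed k] [CharZero k] (F₀ : Set M)
      (n N R : ℕ) (x : Fin n → M) (a : Fin n → Fin N → k) (e : Fin n → Fin N → Fin R → ℤ)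
      (m : Fin R → ℕ) (b z : Fin R → M), N₀ n ≤ N → AlgebraicIndependent k x →
      aeval (fun p : Fin n × Fin N => a p.1 p.2) (Φ n N) ≠ 0 →
      (∀ r, GoodEl2 k F₀ (b r) ∧ b r ≠ 0 ∧
        ∏ l, ∏ j, (x l - algebraMap k M (a l j)) ^ e l j r = b r * z r ^ m r) →
      (∀ l j, ∃ r, ¬ (m r : ℤ) ∣ e l j r) → ∀ l, GoodEl2 k F₀ (x l)

/-- STP: a product step preserves good elements -/
def StpStmt : Prop :=
  ∃ (N₀ : ℕ → ℕ) (Φ : ∀ n N : ℕ, MvPolynomial (Fin n × Fin N) ℤ),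
    (∀ n N, N₀ n ≤ N → Φ n N ≠ 0) ∧
    ∀ {k M : Type u} [Field k] [Field M] [Algebra k M] [IsAlgClosed k] [CharZero k] (F₀ : Set M)
      (F F' : Subfield M), ProdStep N₀ Φ (algebraMap k M).fieldRange F F' →
      (∀ a ∈ F, GoodEl2 k F₀ a) → ∀ a ∈ F', GoodEl2 k F₀ a

end Pool.Agent.PN
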