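import Pool.Agent.Helper50_PN.Stmts

/-!
# Squad PN: the genericity conditions
-/

set_option autoImplicit false

universe u

open MvPolynomial PGH PGL

namespace Pool.Agent.PN

/-- a coefficient of a polynomial in two groups of variables -/
theorem exists_coeff {σ τ : Type} (P : MvPolynomial (σ ⊕ τ) ℤ) (hP : P ≠ 0) :
    ∃ G : MvPolynomial σ ℤ, G ≠ 0 ∧ ∀ {k : Type u} [Field k] (a : σ → k), aeval a G ≠ 0 →
      ∃ Q : MvPolynomial τ k, Q ≠ 0 ∧ ∀ {M : Type u} [Field M] [Algebra k M] (y : τ → M),
        aeval y Q = aeval (Sum.elim (fun s => algebraMap k M (a s)) y) P := by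
  let e : MvPolynomial (σ ⊕ τ) ℤ →ₐ[ℤ] MvPolynomial τ (MvPolynomial σ ℤ) :=
    (sumAlgEquiv ℤ τ σ).toAlgHom.comp (rename Sum.swap)
  have he : Function.Injective e := by
    refine (sumAlgEquiv ℤ τ σ).injective.comp ?_
    exact rename_injective _ Sum.swap_leftInverse.injective
  have hQ : e P ≠ 0 := by
    rw [Ne, map_eq_zero_iff e he]; exact hP
  obtain ⟨s, hs⟩ := ne_zero_iff.1 hQ
  refine ⟨coeff s (e P), hs, ?_⟩
  intro k _ a ha
  refine ⟨map ((aeval a : MvPolynomial σ ℤ →ₐ[ℤ] k) : MvPolynomial σ ℤ →+* k) (e P), ?_, ?_⟩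
  · intro h0
    have := congrArg (coeff s) h0
    rw [coeff_map, coeff_zero] at this
    exact ha this
  · intro M _ _ y
    clear hP hQ hs s ha
    induction P using MvPolynomial.induction_on with
    | C c => simp
    | add p q hp hq => rw [map_add, map_add, map_add, map_add, hp, hq]
    | mul_X p i hp =>
      rw [map_mul, map_mul, map_mul, map_mul, hp]
      congr 1
      rcases i with i | i
      · have : e (X (Sum.inl i)) = C (X i) := by
          change sumAlgEquiv ℤ τ σ (rename Sum.swap (X (Sum.inl i))) = _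
          rw [rename_X, Sum.swap_inl, sumAlgEquiv_X_inr]
        rw [this, map_C]
        simp
      · have : e (X (Sum.inr i)) = X i := by
          change sumAlgEquiv ℤ τ σ (rename Sum.swap (X (Sum.inr i))) = _
          rw [rename_X, Sum.swap_inr, sumAlgEquiv_X_inl]
        rw [this, map_X]
        simp

/-- distinct values -/
noncomputable def disP (n N : ℕ) : MvPolynomial (Fin n × Fin N) ℤ := by
  classical
  exact ∏ t : Fin n × Fin N × Fin N,
    if t.2.1 ≠ t.2.2 then X (t.1, t.2.1) - X (t.1, t.2.2) else 1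

theorem disP_ne_zero (n N : ℕ) : disP n N ≠ 0 := by
  classical
  unfold disP
  rw [Finset.prod_ne_zero_iff]
  intro t _
  split_ifs with h
  · rw [sub_ne_zero]
    intro h'
    exact h (Prod.ext_iff.1 (X_injective h')).2
  · exact one_ne_zero

theorem inj_of_disP {n N : ℕ} {k : Type*} [Field k] (a : Fin n → Fin N → k)
    (h : aeval (fun p : Fin n × Fin N => a p.1 p.2) (disP n N) ≠ 0) (l : Fin n) :
    Function.Injective (a l) := by
  classical
  intro i j hij
  by_contra hne
  apply h
  unfold disP
  rw [map_prod]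
  apply Finset.prod_eq_zero (Finset.mem_univ (l, i, j))
  rw [if_pos hne, map_sub, aeval_X, aeval_X, sub_eq_zero]
  exact hij

end Pool.Agent.PN
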