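import Pool.Agent.Helper50_PN.Curve
import Pool.Agent.Helper50_PN.Gen

/-!
# Squad PN: the data of a product step give good elements
-/

set_option autoImplicit false

universe u

open MvPolynomial PGH PGL

namespace Pool.Agent.PN

theorem coeff_hs {E : Type*} [Field E] [CharZero E] (D : Derivation ℤ E E) (y : E) :
    PowerSeries.coeff 0 (hs D y) = y ∧ PowerSeries.coeff 1 (hs D y) = D y := by
  constructor <;> simp [hs]

theorem ev_aeval' {k M E : Type*} [Field k] [Field M] [Algebra k M] [Field E] [Algebra k E]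
    {S : Subalgebra k M} (φ : S →ₐ[k] E) {τ : Type*} (y : τ → M) (hy : ∀ j, y j ∈ S)
    (Q : MvPolynomial τ k) : aeval y Q ∈ S ∧ ev φ (aeval y Q) = aeval (fun j => ev φ (y j)) Q := by
  let y' : τ → S := fun j => ⟨y j, hy j⟩
  have h1 : ((aeval y' Q : S) : M) = aeval y Q := by
    have h2 : S.val (aeval y' Q) = aeval y Q := by
      rw [← AlgHom.comp_apply, comp_aeval]
      rfl
    exact h2
  rw [← h1]
  refine ⟨SetLike.coe_mem _, ?_⟩
  rw [ev_coe, ← AlgHom.comp_apply, comp_aeval]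
  congr 1
  ext j
  rw [aeval_X, aeval_X]
  exact (ev_mem φ (hy j)).symm

/-- GOO -/
theorem goo (hJET : JetStmt.{u}) (hHGT : HgtStmt.{u}) (hCNT : CntStmt.{u})
    (hD : DRatStmt.{u}) : GooStmt.{u} := by
  classical
  choose kk mm mm' BB hkk hmm' hBB N₁ hN₁ using hJET
  choose hBN Fp hFF hFJ using hN₁
  choose Gp hGG hGQ using fun n' (h : 2 ≤ n') N (hN : N₁ n' h ≤ N) =>
    exists_coeff.{u} (Fp n' h N hN) (hFF n' h N hN)
  -- the condition for a choice of coordinates
  let cf : ∀ (n N n' : ℕ), (Fin n' → Fin n) → MvPolynomial (Fin n × Fin N) ℤ :=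
    fun n N n' ι => if h : ∃ (h2 : 2 ≤ n') (_ : N₁ n' h2 ≤ N), Function.Injective ι then
      rename (fun p : Fin n' × Fin N => (ι p.1, p.2)) (Gp n' h.1 N h.2.1) else 1
  let Nm : ℕ → ℕ := fun n => max 8 (∑ n' ∈ Finset.range (n + 1),
    if h : 2 ≤ n' then N₁ n' h else 0)
  have hNm : ∀ n n' (h : 2 ≤ n'), n' ≤ n → N₁ n' h ≤ Nm n := by
    intro n n' h hn'
    refine le_trans ?_ (le_max_right _ _)
    have h1 := Finset.single_le_sum (f := fun n' => if h : 2 ≤ n' then N₁ n' h else 0)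
      (fun _ _ => Nat.zero_le _)
      (show n' ∈ Finset.range (n + 1) from Finset.mem_range.2 (Nat.lt_succ_of_le hn'))
    simp only [dif_pos h] at h1
    exact h1
  refine ⟨Nm, fun n N => disP n N * ∏ n' ∈ Finset.range (n + 1), ∏ ι : Fin n' → Fin n,
    cf n N n' ι, ?_, ?_⟩
  · intro n N _
    refine mul_ne_zero (disP_ne_zero n N) ?_
    refine Finset.prod_ne_zero_iff.2 fun n' _ => Finset.prod_ne_zero_iff.2 fun ι _ => ?_
    simp only [cf]
    split_ifs with h
    · rw [Ne, map_eq_zero_iff _ (rename_injective _ ?_)]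
      · exact hGG _ _ _ _
      · intro p q hpq
        rw [Prod.mk.injEq] at hpq
        exact Prod.ext (h.2.2 hpq.1) hpq.2
    · exact one_ne_zero
  intro k M _ _ _ _ _ F₀ n N R x a e m b z hN hx hΦ hval hram l
  have h8 : 8 ≤ N := (le_max_left _ _).trans hN
  rw [map_mul] at hΦ
  have hinj := inj_of_disP a (left_ne_zero_of_mul hΦ)
  have hcf := right_ne_zero_of_mul hΦ
  rw [map_prod, Finset.prod_ne_zero_iff] at hcf
  have hxi : Function.Injective (algebraMap k M) := (algebraMap k M).injective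
  have hxa : ∀ l j, x l - algebraMap k M (a l j) ≠ 0 := by
    intro l j h
    have h1 : Transcendental k (x l) := hx.transcendental l
    rw [sub_eq_zero] at h
    rw [h] at h1
    exact h1 (isAlgebraic_algebraMap _)
  -- the exceptional elements
  have hQ : ∀ (n' : ℕ) (ι : Fin n' → Fin n), ∃ Q : MvPolynomial (Fin n') k,
      aeval (fun i => x (ι i)) Q ≠ 0 ∧
      ∀ (h2 : 2 ≤ n') (hN' : N₁ n' h2 ≤ N), Function.Injective ι →
        ∀ {E : Type u} [Field E] [Algebra k E] (y : Fin n' → E), aeval y Q =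
          aeval (Sum.elim (fun p : Fin n' × Fin N => algebraMap k E (a (ι p.1) p.2)) y)
            (Fp n' h2 N hN') := by
    intro n' ι
    by_cases h : ∃ (h2 : 2 ≤ n') (_ : N₁ n' h2 ≤ N), Function.Injective ι
    · have hn' : n' ≤ n := by
        have := Fintype.card_le_of_injective ι h.2.2
        rwa [Fintype.card_fin, Fintype.card_fin] at this
      have h1 := hcf n' (Finset.mem_range.2 (Nat.lt_succ_of_le hn'))
      rw [map_prod, Finset.prod_ne_zero_iff] at h1
      have h3 := h1 ι (Finset.mem_univ _)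
      simp only [cf] at h3
      rw [dif_pos h, aeval_rename] at h3
      obtain ⟨Q, hQ0, hQe⟩ := hGQ n' h.1 N h.2.1 (fun p : Fin n' × Fin N => a (ι p.1) p.2) h3
      refine ⟨Q, ?_, ?_⟩
      · intro h0
        apply hQ0
        have h4 : AlgebraicIndependent k (fun i => x (ι i)) := hx.comp ι h.2.2
        exact (algebraicIndependent_iff.1 h4) Q h0
      · intro h2 hN' _ E _ _ y
        exact hQe y
    · refine ⟨1, by simp, ?_⟩
      intro h2 hN' hι
      exact absurd ⟨h2, hN', hι⟩ h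
  choose Q hQ0 hQe using hQ
  choose hbg hb hrel using hval
  choose Tb hTb hbT hbB hbR using hbg
  set U : Set M := (Set.range x ∪ Set.range z ∪ Set.range (fun r => (b r)⁻¹) ∪
    Set.range (fun p : Fin n × Fin N => (x p.1 - algebraMap k M (a p.1 p.2))⁻¹) ∪
    Set.range (fun p : Σ n' : Fin (n + 1), (Fin n' → Fin n) =>
      (aeval (fun i => x (p.2 i)) (Q p.1 p.2))⁻¹)) with hU
  have hUf : U.Finite := by
    refine Set.Finite.union ?_ (Set.finite_range _)
    refine Set.Finite.union ?_ (Set.finite_range _)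
    refine Set.Finite.union ?_ (Set.finite_range _)
    exact (Set.finite_range _).union (Set.finite_range _)
  set T0 : Set M := (⋃ i, Tb i) ∪ U with hT0
  have hT0f : T0.Finite := (Set.finite_iUnion (fun i => hTb i)).union hUf
  have hsub : ∀ i, Tb i ⊆ T0 := fun i => (Set.subset_iUnion Tb i).trans Set.subset_union_left
  have hT0' : ∀ a : M, a ∈ U → a ∈ T0 := fun a h => Or.inr h
  have hxT : ∀ l, x l ∈ T0 := fun l => hT0' _ (by simp [hU])
  have hzT : ∀ r, z r ∈ T0 := fun r => hT0' _ (by simp [hU])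
  have hbiT : ∀ r, (b r)⁻¹ ∈ T0 := fun r => hT0' _ (by simp [hU])
  have hxaT : ∀ l j, (x l - algebraMap k M (a l j))⁻¹ ∈ T0 := fun l j =>
    hT0' _ (Or.inl (Or.inr ⟨(l, j), rfl⟩))
  have hQT : ∀ (n' : ℕ) (ι : Fin n' → Fin n), n' ≤ n →
      (aeval (fun i => x (ι i)) (Q n' ι))⁻¹ ∈ T0 := fun n' ι hn' =>
    hT0' _ (Or.inr ⟨⟨⟨n', Nat.lt_succ_of_le hn'⟩, ι⟩, rfl⟩)
  clear_value U T0
  clear hT0 hU
  -- constants
  set K₁ : ℕ := 4 + ∑ n' ∈ Finset.range (n + 1),
    (if h : 2 ≤ n' then 2 * mm n' h + 4 * n' * mm' n' h else 0) with hK₁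
  set K₂ : ℕ := 1 + ∑ n' ∈ Finset.range (n + 1),
    (if h : 2 ≤ n' then mm' n' h else 0) with hK₂
  have hK1 : ∀ n' (h : 2 ≤ n'), n' ≤ n → 2 * mm n' h + 4 * n' * mm' n' h ≤ K₁ := by
    intro n' h hn'
    have h1 := Finset.single_le_sum
      (f := fun n' => if h : 2 ≤ n' then 2 * mm n' h + 4 * n' * mm' n' h else 0)
      (fun _ _ => Nat.zero_le _)
      (show n' ∈ Finset.range (n + 1) from Finset.mem_range.2 (Nat.lt_succ_of_le hn'))
    simp only [dif_pos h] at h1
    rw [hK₁]
    omega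
  have hK2 : ∀ n' (h : 2 ≤ n'), n' ≤ n → mm' n' h ≤ K₂ := by
    intro n' h hn'
    have h1 := Finset.single_le_sum
      (f := fun n' => if h : 2 ≤ n' then mm' n' h else 0)
      (fun _ _ => Nat.zero_le _)
      (show n' ∈ Finset.range (n + 1) from Finset.mem_range.2 (Nat.lt_succ_of_le hn'))
    simp only [dif_pos h] at h1
    rw [hK₂]
    omega
  have hK4 : 4 ≤ K₁ := by omega
  have hK5 : 1 ≤ K₂ := by omega
  clear_value K₁ K₂
  -- the common part of both estimates
  have key : ∀ (E : Type u) [Field E] [Algebra k E] [FF k E] (D : Derivation ℤ E E)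
      (cp : Place k E → ℕ) (sc : Finset (Place k E)),
      (∀ c : k, D (algebraMap k E c) = 0) → (∀ w : E, D w = 0 → ∃ c : k, algebraMap k E c = w) →
      (∀ v : Place k E, DGe v D (-(cp v : ℤ))) → (∀ v ∉ sc, cp v = 0) →
      ∀ (S : Subalgebra k M), T0 ⊆ (S : Set M) → ∀ φ : S →ₐ[k] E,
      (ht k (ev φ (x l)) : ℤ) ≤
        K₁ * ∑ v ∈ sc, (cp v : ℤ) + K₂ * ∑ r, 2 * (ht k (ev φ (b r)) : ℤ) := by
    intro E _ _ _ D cp sc hDk hDc hcp hsc S hTS φ
    have hch : CharZero E := charZero_of_injective_algebraMap (algebraMap k E).injective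
    have hxS : ∀ l, x l ∈ S := fun l => hTS (hxT l)
    have hbS : ∀ r, b r ∈ S := fun r => hTS (hsub r (hbT r))
    have hzS : ∀ r, z r ∈ S := fun r => hTS (hzT r)
    have hcS : ∀ c : k, ev φ (algebraMap k M c) = algebraMap k E c := by
      intro c
      rw [ev_mem φ (S.algebraMap_mem c)]
      exact φ.commutes c
    have hsubS : ∀ l j, x l - algebraMap k M (a l j) ∈ S ∧
        ev φ (x l - algebraMap k M (a l j)) = ev φ (x l) - algebraMap k E (a l j) := by
      intro l j
      have h1 : -algebraMap k M (a l j) = algebraMap k M (-(a l j)) := (map_neg _ _).symm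
      refine ⟨sub_mem (hxS l) (S.algebraMap_mem _), ?_⟩
      rw [sub_eq_add_neg, h1, ev_add φ (hxS l) (S.algebraMap_mem _), hcS, map_neg, sub_eq_add_neg]
    have hxaE : ∀ l j, ev φ (x l) ≠ algebraMap k E (a l j) := by
      intro l j
      rw [← sub_ne_zero, ← (hsubS l j).2]
      exact ev_ne_zero φ (hsubS l j).1 (hTS (hxaT l j)) (hxa l j)
    have hrelE : ∀ r, ∏ l, ∏ j, (ev φ (x l) - algebraMap k E (a l j)) ^ e l j r =
        ev φ (b r) * ev φ (z r) ^ m r := by
      intro r
      have h2 := congrArg (ev φ) (hrel r)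
      have h3 : ∀ l j, (x l - algebraMap k M (a l j)) ^ e l j r ∈ S ∧
          ev φ ((x l - algebraMap k M (a l j)) ^ e l j r) =
            (ev φ (x l) - algebraMap k E (a l j)) ^ e l j r := by
        intro l j
        have h4 := DP.ev_zpow' φ (hsubS l j).1 (hTS (hxaT l j)) (e l j r)
        rw [(hsubS l j).2] at h4
        exact h4
      have h5 : ∀ l, ∏ j, (x l - algebraMap k M (a l j)) ^ e l j r ∈ S ∧
          ev φ (∏ j, (x l - algebraMap k M (a l j)) ^ e l j r) =
            ∏ j, (ev φ (x l) - algebraMap k E (a l j)) ^ e l j r := by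
        intro l
        have h4 := DP.ev_prod' φ Finset.univ (fun j => (x l - algebraMap k M (a l j)) ^ e l j r)
          (fun j _ => (h3 l j).1)
        refine ⟨h4.1, h4.2.trans (Finset.prod_congr rfl fun j _ => (h3 l j).2)⟩
      have h6 := DP.ev_prod' φ Finset.univ
        (fun l => ∏ j, (x l - algebraMap k M (a l j)) ^ e l j r) (fun l _ => (h5 l).1)
      rw [h6.2, ev_mul φ (hbS r) (pow_mem (hzS r) _), ev_pow φ (hzS r)] at h2
      rw [← h2]
      exact Finset.prod_congr rfl fun l _ => ((h5 l).2).symm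
    refine curve hHGT hCNT h8 hinj hxaE
      (fun r => ev_ne_zero φ (hbS r) (hTS (hbiT r)) (hb r)) hrelE hram hDk hDc hcp hsc hK4 hK5
      ?_ l
    intro n' ι h2 hι hDx
    have hn' : n' ≤ n := by
      have := Fintype.card_le_of_injective ι hι
      rwa [Fintype.card_fin, Fintype.card_fin] at this
    have hN' : N₁ n' h2 ≤ N := (hNm n n' h2 hn').trans hN
    refine ⟨kk n' h2, mm n' h2, mm' n' h2, BB n' h2, hBB n' h2, hBN n' h2 N hN', hK1 n' h2 hn',
      hK2 n' h2 hn', ?_⟩
    by_contra hcon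
    push Not at hcon
    have h3 := ev_aeval' φ (fun i => x (ι i)) (fun i => hxS (ι i)) (Q n' ι)
    have h4 := ev_ne_zero φ h3.1 (hTS (hQT n' ι hn')) (hQ0 n' ι)
    apply h4
    rw [h3.2, hQe n' ι h2 hN' hι (fun i => ev φ (x (ι i)))]
    have h5 := hFJ n' h2 N hN' (fun l j => algebraMap k E (a (ι l) j))
      (fun l => hs D (ev φ (x (ι l))))
      (fun l => by rw [(coeff_hs D _).2]; exact hDx l)
      (fun l j => by rw [(coeff_hs D _).1]; exact hxaE (ι l) j)
      (fun Q hQ => hcon Q hQ)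
    simp only [(coeff_hs D _).1] at h5
    exact h5
  refine ⟨T0, hT0f, hxT l, ?_, ?_⟩
  · intro E _ _ _ ψ
    have hch : CharZero E := charZero_of_injective_algebraMap (algebraMap k E).injective
    obtain ⟨t, htr⟩ := FF.exists_transcendental (L := k) (E := E)
    obtain ⟨δ, hδ⟩ := exists_deriv k E htr
    let D : Derivation ℤ E E := δ.restrictScalars ℤ
    have hDk : ∀ c : k, D (algebraMap k E c) = 0 := fun c => δ.map_algebraMap c
    have hPL : PresL k D := fun c => ⟨0, by rw [hDk, map_zero]⟩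
    have hDt : D t ≠ 0 := by
      change δ t ≠ 0
      rw [hδ]; exact one_ne_zero
    have hconst : ∀ w, D w = 0 → ∃ c : k, algebraMap k E c = w := by
      intro w hw
      apply not_transcendental
      intro hwt
      have hal := FF.isAlgebraic hwt
      exact hDt (deriv_zero_of_isAlgebraic_adjoin (AlgHom.id k E) D hDk hw (hal.isAlgebraic t))
    obtain ⟨cp, sc, hsc, hcp⟩ := bounded_poles (L := k) D hPL
    choose Bd hBd using fun i => hbB i E ψ
    refine ⟨(K₁ * ∑ v ∈ sc, (cp v : ℤ) + K₂ * ∑ r, 2 * (Bd r : ℤ)).toNat,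
      fun S hTS φ hψ => ?_⟩
    have h1 := key E D cp sc hDk hconst hcp hsc S hTS φ
    have h2 : ∑ i, 2 * (ht k (ev φ (b i)) : ℤ) ≤ ∑ i, 2 * (Bd i : ℤ) := by
      apply Finset.sum_le_sum
      intro i _
      have := hBd i S ((hsub i).trans hTS) φ (fun t ht => hψ t (hsub i ht))
      omega
    have h3 : (K₂ : ℤ) * ∑ r, 2 * (ht k (ev φ (b r)) : ℤ) ≤ K₂ * ∑ r, 2 * (Bd r : ℤ) :=
      mul_le_mul_of_nonneg_left h2 (by positivity)
    omega
  · intro E _ _ z' hz' htop S hTS φ hF
    obtain ⟨hFF', D, hDk, hDc, hDg⟩ := hD k E z' hz' htop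
    have h1 := key E D (fun _ => 0) ∅ hDk hDc (fun v => by simpa using hDg v) (fun _ _ => rfl) S
      hTS φ
    have h2 : ∀ i, ht k (ev φ (b i)) = 0 := by
      intro i
      obtain ⟨c, hc⟩ := hbR i E z' hz' htop S ((hsub i).trans hTS) φ
        (fun t ht ht0 => hF t (hsub i ht) ht0)
      rw [hc, ht_const]
    simp only [h2] at h1
    simp only [mul_zero, Nat.cast_zero, Finset.sum_const_zero, add_zero] at h1
    obtain ⟨c, hc⟩ := ht_eq_zero_iff (k := k) (w := ev φ (x l)) (by omega)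
    exact ⟨c, hc⟩

end Pool.Agent.PN
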