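import Pool.Agent.Helper50_PN.Main
import Pool.Agent.Helper50_PN.Goo
import Pool.Agent.Helper52_PN.Blk
import Pool.Agent.Helper21_PN.Cld
import Pool.Agent.Helper11_PN.Clm
import Pool.Agent.Helper21_PN.Cln
import Pool.Agent.Helper71_PN.Clo
import Pool.Agent.Helper20_PN.Cnc
import Pool.Agent.Helper40_PN.Cnt
import Pool.Agent.Helper76_PN.Cnu
import Pool.Agent.Helper77_PN.COE
import Pool.Agent.Helper77_PN.DET
import Pool.Agent.Helper39_PN.Dgr
import Pool.Agent.Helper64_PN.Evn
import Pool.Agent.Helper64_PN.Evp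
import Pool.Agent.Helper27_PN.Exi
import Pool.Agent.Helper96_PN.Exp
import Pool.Agent.Helper94_PN.Hgt
import Pool.Agent.Helper81_PN.Hsd
import Pool.Agent.Helper69_PN.Jet
import Pool.Agent.Helper27_PN.Nua
import Pool.Agent.Helper52_PN.Nub
import Pool.Agent.Helper96_PN.Nuc
import Pool.Agent.Helper77_PN.PSI
import Pool.Agent.Helper9_PN.Num
import Pool.Agent.Helper86_PN.Ram
import Pool.Agent.Helper69_PN.Spa
import Pool.Agent.Helper69_PN.Spn
import Pool.Agent.Helper19_PN.Stp
import Pool.Agent.Helper65_PN.Ver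
import Pool.Agent.Helper13_PGL.Drat

/-!
# Squad PN: assembly
-/

universe u

open PGH PGL

namespace Pool.Agent.PN

theorem exi : ExiStmt.{u} :=
  H27.exi (H9.num H27.nua H52.nub H96.nuc) H76.cnu H20.cnc H52.blk_main H96.exp H77.psi_thm

theorem goo_ : GooStmt.{u} :=
  goo (H69.jet exi (H71.clo (H21.cld H39.dgr) H21.cln H11.clm) (H69.spa H77.det) H69.spn
    H65.ver H77.coe) (H94.hgt H64.evp (H64.evn H81.hsd) (H40.cnt H86.ram)) (H40.cnt H86.ram)
    H13.dRat

theorem step : StpStmt.{u} := H19.stp goo_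

end Pool.Agent.PN
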