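import Pool.Agent.Helper50_PN.Stmts
import Pool.Agent.Helper11_PGL.StmtG
import Pool.Agent.Helper97_PGH.TowerDefs
import Pool.Agent.Helper97_PGH.SchemeRel

/-!
# Squad PN: the main theorem
-/

set_option autoImplicit false

open CategoryTheory AlgebraicGeometry PGH PGL

universe u

namespace Pool.Agent.PN

theorem good2_of_tower {k M : Type u} [Field k] [Field M] [Algebra k M]
    {St : Subfield M → Subfield M → Prop}
    (h1 : ∀ (F₀ : Set M) (F F' : Subfield M), St F F' →
      (∀ a ∈ F, GoodEl2 k F₀ a) → ∀ a ∈ F', GoodEl2 k F₀ a) {F₀ : Set M} {F F' : Subfield M}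
    (h : Relation.ReflTransGen St F F')
    (hF : ∀ a ∈ F, GoodEl2 k F₀ a) : ∀ a ∈ F', GoodEl2 k F₀ a := by
  induction h with
  | refl => exact hF
  | tail _ h ih => exact h1 F₀ _ _ h ih

/-- towers of steps which preserve good elements -/
theorem main_gen (St : ∀ {M : Type u} [Field M], Subfield M → Subfield M → Subfield M → Prop)
    (h1 : ∀ (k M : Type u) [Field k] [Field M] [Algebra k M] [IsAlgClosed k] [CharZero k]
      (F₀ : Set M) (F F' : Subfield M), St (algebraMap k M).fieldRange F F' →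
      (∀ a ∈ F, GoodEl2 k F₀ a) → ∀ a ∈ F', GoodEl2 k F₀ a)
    (h2 : Fin2BStmt.{u}) (h3 : GAlgStmt.{u}) {k : Type u} [Field k] [IsAlgClosed k] [CharZero k]
    {X : Scheme.{u}} (f : X ⟶ Spec (.of k)) [IsIntegral X] [IsSeparated f]
    [LocallyOfFiniteType f] [QuasiCompact f] :
    (Relation.ReflTransGen (St (constants k f).fieldRange)
      (constants k f).fieldRange ⊤ → IsPGH k f) ∧
    (∀ {Y : Scheme.{u}} (q : Y ⟶ Spec (.of k)) [IsIntegral Y] (g : X ⟶ Y) [IsDominant g],
      g ≫ q = f → IsPGH k q →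
      Relation.ReflTransGen (St (constants k f).fieldRange)
        (pullbackField g).fieldRange ⊤ → IsPGH k f) := by
  let _ : Algebra k X.functionField := (constants k f).toAlgebra
  refine ⟨fun h => ?_, fun {Y} q _ g _ hgq hY h => ?_⟩
  · have hgood : ∀ a : X.functionField, GoodEl2 k (∅ : Set X.functionField) a := fun a =>
      good2_of_tower (k := k) (fun F₀ F F' hs => h1 k X.functionField F₀ F F' hs) h
        (by rintro _ ⟨c, rfl⟩; exact (h3 k X.functionField _).2.1 c) a trivial
    refine isPGH_of_fields k f X.functionField (RingEquiv.refl _) (fun c => rfl) ?_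
    intro A hA
    obtain ⟨T, hT, hh⟩ := h2 k X.functionField _ hgood A hA
    refine ⟨T, hT, fun d hd hd0 hTR E _ _ _ P x => ?_⟩
    refine (hh d hd hd0 hTR E P x (fun _ => 0)).subset ?_
    intro φ hφ
    exact ⟨hφ, fun r hr => absurd hr.2 (Set.notMem_empty _)⟩
  · have hgood : ∀ a : X.functionField,
        GoodEl2 k (Set.range (fun b => RingEquiv.refl _ (pullbackField g b))) a := fun a =>
      good2_of_tower (k := k) (fun F₀ F F' hs => h1 k X.functionField F₀ F F' hs) h
        (by rintro _ ⟨b, rfl⟩; exact (h3 k X.functionField _).1 _ ⟨b, rfl⟩) a trivial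
    exact isPGH_of_fields_rel k f q g hgq hY X.functionField (RingEquiv.refl _) (fun c => rfl)
      (h2 k X.functionField _ hgood)

/-- the range of an embedding of fields: polynomials over it -/
theorem indep_range {k M : Type*} [Field k] [Field M] [Algebra k M] {n : ℕ} (x : Fin n → M)
    (hx : ∀ p : MvPolynomial (Fin n) k, MvPolynomial.eval₂ (algebraMap k M) x p = 0 → p = 0)
    (p : MvPolynomial (Fin n) (algebraMap k M).fieldRange)
    (hp : MvPolynomial.eval₂ (algebraMap k M).fieldRange.subtype x p = 0) : p = 0 := by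
  have hsurj : Function.Surjective (algebraMap k M).rangeRestrictField :=
    (algebraMap k M).rangeRestrictField_bijective.2
  obtain ⟨q, rfl⟩ := MvPolynomial.map_surjective _ hsurj p
  rw [MvPolynomial.eval₂_map] at hp
  rw [hx q hp, map_zero]

theorem aeval_range {k M ι : Type*} [Field k] [Field M] [Algebra k M] (a : ι → k)
    (P : MvPolynomial ι ℤ) :
    MvPolynomial.aeval (fun p => algebraMap k M (a p)) P =
      algebraMap k M (MvPolynomial.aeval a P) := by
  have h := MvPolynomial.comp_aeval_apply a (algebraMap k M).toIntAlgHom P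
  exact h.symm

/-- a product step from its data over the field of constants -/
theorem prodStep_of {k M : Type*} [Field k] [Field M] [Algebra k M] (N₀ : ℕ → ℕ)
    (Φ : ∀ n N : ℕ, MvPolynomial (Fin n × Fin N) ℤ) (F F' : Subfield M) (hle : F ≤ F')
    (n N R : ℕ) (x : Fin n → M) (a : Fin n → Fin N → k) (e : Fin n → Fin N → Fin R → ℤ)
    (m : Fin R → ℕ) (b z : Fin R → M) (hN : N₀ n ≤ N)
    (hx : ∀ p : MvPolynomial (Fin n) k, MvPolynomial.eval₂ (algebraMap k M) x p = 0 → p = 0)
    (hΦ : MvPolynomial.aeval (fun p : Fin n × Fin N => a p.1 p.2) (Φ n N) ≠ 0)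
    (hz : ∀ r, b r ∈ F ∧ b r ≠ 0 ∧ ∏ l, ∏ j, (x l - algebraMap k M (a l j)) ^ e l j r =
      b r * z r ^ m r)
    (he : ∀ l j, ∃ r, ¬ (m r : ℤ) ∣ e l j r)
    (halg : ∀ w ∈ F', IsAlgebraic (Subfield.closure ((F : Set M) ∪ Set.range x)) w) :
    ProdStep N₀ Φ (algebraMap k M).fieldRange F F' := by
  refine ⟨hle, n, N, R, x, fun l j => algebraMap k M (a l j), e, m, b, z, hN,
    indep_range x hx, fun l j => ⟨a l j, rfl⟩, ?_, hz, he, halg⟩
  rw [aeval_range (M := M) (fun p : Fin n × Fin N => a p.1 p.2)]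
  exact fun h => hΦ ((map_eq_zero _).1 h)

end Pool.Agent.PN
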