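import Pool.Agent.Helper3_PPX.Main
import Pool.Agent.Helper6_PPX.Goo2

/-!
# Pair steps preserve good elements of the second kind
-/

set_option autoImplicit false

universe u

namespace Pool.Agent.PPX

theorem stp2 : Goo2Stmt.{u} := H6.goo2 H3.htx0 (H6.hgt H6.pa2)

theorem PairStep.mono {M : Type*} [Field M] {N₀ N₁ : ℕ} (h : N₀ ≤ N₁) {K F F' : Subfield M}
    (hs : PairStep N₁ K F F') : PairStep N₀ K F F' := by
  obtain ⟨hle, n₁, n₂, R, x, z, a, b, α, β, e, c, y, h1, h2, hh⟩ := hs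
  exact ⟨hle, n₁, n₂, R, x, z, a, b, α, β, e, c, y, h.trans h1, h.trans h2, hh⟩

end Pool.Agent.PPX
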