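import Pool.Agent.Helper50_PN.Main
import Pool.Agent.Helper50_PN.AsmX

/-!
# Towers of product steps and pair steps
-/

set_option autoImplicit false

open CategoryTheory AlgebraicGeometry PGH PGL MvPolynomial

universe u

namespace Pool.Agent.ProductTowers

/-- A fibre step from the subfield `F` to the subfield `F'` of `M`, relative to `κ : k → M`.  It is
a product step (see `PN.ProdStep`: elements `x l` of `M`, `l < n`, algebraically independent over
`k`, and general elements `a l j` of `k`, `j < N`, where `N ≥ N₀ n` and general means that the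
polynomial `Φ n N` does not vanish) or a pair step (see `PairTowers.Step`: two elements `x`, `z` of
`M`, algebraically independent over `k`, at least `N₀ 2` arbitrary distinct elements `a i` of `k`
and `N ≥ N₀ 2` elements `b j` of `k`, general in the sense that `Ψ N` does not vanish).  In both
cases there are finitely many relations with coefficients in `F` between products of powers of
the `x l - a l j` and powers of elements of `M` which ensure the ramification over each single
fibre, and `F'` is algebraic over the field generated by `F` and the `x l`. -/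
def Step (N₀ : ℕ → ℕ) (Φ : ∀ n N : ℕ, MvPolynomial (Fin n × Fin N) ℤ)
    (Ψ : ∀ N, MvPolynomial (Fin N) ℚ) {k M : Type*} [Field k] [CharZero k] [Field M] (κ : k →+* M)
    (F F' : Subfield M) : Prop :=
  PN.ProdStep N₀ Φ κ.fieldRange F F' ∨ PairTowers.Step (N₀ 2) Ψ κ F F'

end Pool.Agent.ProductTowers

namespace Pool.Agent.PN

/-- the main theorem, from the statements of the squads PN and PPX -/
theorem main_of (h0 : StpStmt.{u}) (h1 : PPX.Goo2Stmt.{u}) (h1' : PPX.GpeStmt.{u})
    (h2 : Fin2BStmt.{u}) (h3 : GAlgStmt.{u}) :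
    ∃ (N₀ : ℕ → ℕ) (Φ : ∀ n N : ℕ, MvPolynomial (Fin n × Fin N) ℤ)
      (Ψ : ∀ N, MvPolynomial (Fin N) ℚ), (∀ n N, N₀ n ≤ N → Φ n N ≠ 0) ∧ (∀ N, Ψ N ≠ 0) ∧
      ∀ {k : Type u} [Field k] [IsAlgClosed k] [CharZero k] {X : Scheme.{u}}
        (f : X ⟶ Spec (.of k)) [IsIntegral X] [IsSeparated f] [LocallyOfFiniteType f]
        [QuasiCompact f],
      (Relation.ReflTransGen (ProductTowers.Step N₀ Φ Ψ (constants k f))
        (constants k f).fieldRange ⊤ → IsPGH k f) ∧
      ∀ {Y : Scheme.{u}} (q : Y ⟶ Spec (.of k)) [IsIntegral Y] (g : X ⟶ Y) [IsDominant g],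
        g ≫ q = f → IsPGH k q →
        Relation.ReflTransGen (ProductTowers.Step N₀ Φ Ψ (constants k f))
          (pullbackField g).fieldRange ⊤ → IsPGH k f := by
  obtain ⟨N₁, Φ, hΦ, hP⟩ := h0
  obtain ⟨N₂, hX⟩ := h1
  choose Ψ hΨ0 hΨ using h1'
  refine ⟨fun n => max (N₁ n) N₂, Φ, Ψ, fun n N h => hΦ n N ((le_max_left _ _).trans h), hΨ0, ?_⟩
  intro k _ _ _ X f _ _ _ _
  obtain ⟨h4, h5⟩ := main_gen (fun {M} [Field M] K F F' =>
    ProdStep (M := M) N₁ Φ K F F' ∨ PPX.PairStep N₂ K F F') (by
      rintro k M _ _ _ _ _ F₀ F F' (h | h) hF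
      · exact hP F₀ F F' h hF
      · exact hX F₀ F F' h hF) h2 h3 f
  have h6 : ∀ F F' : Subfield X.functionField,
      Relation.ReflTransGen (ProductTowers.Step (fun n => max (N₁ n) N₂) Φ Ψ (constants k f)) F F' →
      Relation.ReflTransGen (fun F F' =>
        ProdStep N₁ Φ (constants k f).fieldRange F F' ∨
          PPX.PairStep N₂ (constants k f).fieldRange F F') F F' := by
    intro F F' h
    refine Relation.ReflTransGen.mono ?_ _ _ h
    rintro F F' (h | h)
    · refine Or.inl ?_
      obtain ⟨hle, n, N, R, x, a, e, m, b, z, hN, hh⟩ := h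
      exact ⟨hle, n, N, R, x, a, e, m, b, z, (le_max_left _ _).trans hN, hh⟩
    · exact Or.inr ((PPX.H3.step_pair (fun N => hΨ N) (constants k f) h).mono (le_max_right _ _))
  exact ⟨fun h => h4 (h6 _ _ h), fun {Y} q _ g _ hgq hY h => h5 q g hgq hY (h6 _ _ h)⟩

end Pool.Agent.PN
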