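import Pool.Agent.Helper50_PN.Stmts
import Pool.Agent.Helper50_DP.Dpg

/-!
# Squad PN: the height inequality for curves, with the relations
-/

set_option autoImplicit false

universe u

open MvPolynomial PGH PGL

namespace Pool.Agent.PN

section places

variable {k E : Type u} [Field k] [IsAlgClosed k] [CharZero k] [Field E] [Algebra k E] [FF k E]

/-- the pattern of a place where exactly one form vanishes -/
theorem pattern {n N R : ℕ} {x : Fin n → E} {a : Fin n → Fin N → k}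
    {e : Fin n → Fin N → Fin R → ℤ} {m : Fin R → ℕ} {b z : Fin R → E}
    (hxa : ∀ l j, x l ≠ algebraMap k E (a l j)) (hb : ∀ r, b r ≠ 0)
    (hrel : ∀ r, ∏ l, ∏ j, (x l - algebraMap k E (a l j)) ^ e l j r = b r * z r ^ m r)
    (hram : ∀ l j, ∃ r, ¬ (m r : ℤ) ∣ e l j r) (v : Place k E) (hv : ∀ r, v.ord (b r) = 0)
    (hreg : ∀ l, v.Ge 0 (x l)) (l : Fin n) (j : Fin N)
    (hl : v.ord (x l - algebraMap k E (a l j)) = 1) :
    ∃ l' j', (l', j') ≠ (l, j) ∧ 0 < v.ord (x l' - algebraMap k E (a l' j')) := by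
  classical
  by_contra hcon
  push Not at hcon
  have hne : ∀ l j, x l - algebraMap k E (a l j) ≠ 0 := fun l j => sub_ne_zero.2 (hxa l j)
  have h0 : ∀ l' j', (l', j') ≠ (l, j) → v.ord (x l' - algebraMap k E (a l' j')) = 0 := by
    intro l' j' h
    refine le_antisymm (hcon l' j' h) ?_
    rw [← v.ge_iff (hne l' j')]
    exact (hreg l').sub (v.ge_const _)
  obtain ⟨r, hr⟩ := hram l j
  apply hr
  have hL : ∏ l, ∏ j, (x l - algebraMap k E (a l j)) ^ e l j r ≠ 0 :=
    Finset.prod_ne_zero_iff.2 fun l _ => Finset.prod_ne_zero_iff.2 fun j _ =>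
      zpow_ne_zero _ (hne l j)
  have hz : z r ^ m r ≠ 0 := by
    intro h
    rw [hrel r, h, mul_zero] at hL
    exact hL rfl
  have h1 := congrArg v.ord (hrel r)
  rw [DP.ord_prod' v Finset.univ _ (fun l _ => Finset.prod_ne_zero_iff.2 fun j _ =>
      zpow_ne_zero _ (hne l j)), v.ord_mul (hb r) hz, hv r, zero_add, v.ord_pow] at h1
  have h2 : ∀ l', v.ord (∏ j, (x l' - algebraMap k E (a l' j)) ^ e l' j r) =
      if l' = l then e l j r else 0 := by
    intro l'
    rw [DP.ord_prod' v Finset.univ _ (fun j _ => zpow_ne_zero _ (hne l' j))]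
    split_ifs with h
    · subst h
      rw [Finset.sum_eq_single j]
      · rw [v.ord_zpow, hl, mul_one]
      · intro j' _ hj'
        rw [v.ord_zpow, h0 l' j' (by
          intro h'
          exact hj' (Prod.ext_iff.1 h').2), mul_zero]
      · intro h; exact absurd (Finset.mem_univ _) h
    · refine Finset.sum_eq_zero fun j' _ => ?_
      rw [v.ord_zpow, h0 l' j' (by
        intro h'
        exact h (Prod.ext_iff.1 h').1), mul_zero]
  rw [Finset.sum_congr rfl (fun l' _ => h2 l'), Finset.sum_ite_eq' Finset.univ l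
    (fun _ => e l j r), if_pos (Finset.mem_univ _)] at h1
  exact ⟨v.ord (z r), by linarith⟩

theorem curve (hHGT : HgtStmt.{u}) (hCNT : CntStmt.{u}) [CharZero E] {n N R : ℕ} (hN : 8 ≤ N)
    {x : Fin n → E} {a : Fin n → Fin N → k} (hinj : ∀ l, Function.Injective (a l))
    {e : Fin n → Fin N → Fin R → ℤ} {m : Fin R → ℕ} {b z : Fin R → E}
    (hxa : ∀ l j, x l ≠ algebraMap k E (a l j)) (hb : ∀ r, b r ≠ 0)
    (hrel : ∀ r, ∏ l, ∏ j, (x l - algebraMap k E (a l j)) ^ e l j r = b r * z r ^ m r)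
    (hram : ∀ l j, ∃ r, ¬ (m r : ℤ) ∣ e l j r) {D : Derivation ℤ E E} {cp : Place k E → ℕ}
    {sc : Finset (Place k E)} (hDk : ∀ c : k, D (algebraMap k E c) = 0)
    (hDc : ∀ w : E, D w = 0 → ∃ c : k, algebraMap k E c = w)
    (hcp : ∀ v : Place k E, DGe v D (-(cp v : ℤ))) (hsc : ∀ v ∉ sc, cp v = 0) {K₁ K₂ : ℕ}
    (h4 : 4 ≤ K₁) (h1 : 1 ≤ K₂)
    (hex : ∀ (n' : ℕ) (ι : Fin n' → Fin n), 2 ≤ n' → Function.Injective ι →
      (∀ l, D (x (ι l)) ≠ 0) → ∃ q m₀ m' B : ℕ, m₀ + (6 + n') * m' + 1 ≤ B ∧ B ≤ N * m' ∧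
        2 * m₀ + 4 * n' * m' ≤ K₁ ∧ m' ≤ K₂ ∧ ∃ Q : Pol n' N q, Cls.{u} m' (N * m' - B) m₀ Q ∧
        evP (fun l j => algebraMap k E (a (ι l) j)) (fun l => hs D (x (ι l))) Q ≠ 0) (l : Fin n) :
    (ht k (x l) : ℤ) ≤ K₁ * ∑ v ∈ sc, (cp v : ℤ) + K₂ * ∑ r, 2 * (ht k (b r) : ℤ) := by
  classical
  have hG : (0 : ℤ) ≤ ∑ v ∈ sc, (cp v : ℤ) := Finset.sum_nonneg fun _ _ => by positivity
  have hH : (0 : ℤ) ≤ ∑ r, 2 * (ht k (b r) : ℤ) := Finset.sum_nonneg fun _ _ => by positivity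
  have hK1 : (4 : ℤ) ≤ K₁ := by exact_mod_cast h4
  have hK2 : (1 : ℤ) ≤ K₂ := by exact_mod_cast h1
  by_cases hl : D (x l) = 0
  · obtain ⟨c, hc⟩ := hDc _ hl
    rw [← hc, ht_const]
    push_cast
    positivity
  set sb : Finset (Place k E) :=
    Finset.univ.biUnion (fun r => (finite_support (L := k) (b r)).toFinset) with hsb
  have hsb1 : ∀ v ∉ sb, ∀ r, v.ord (b r) = 0 := by
    intro v hv r
    by_contra h
    exact hv (Finset.mem_biUnion.2 ⟨r, Finset.mem_univ _,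
      (finite_support (L := k) (b r)).mem_toFinset.2 h⟩)
  have hsb2 : (sb.card : ℤ) ≤ ∑ r, 2 * (ht k (b r) : ℤ) := by
    have h1 : sb.card ≤ ∑ r, ((finite_support (L := k) (b r)).toFinset).card :=
      Finset.card_biUnion_le
    calc (sb.card : ℤ) ≤ ((∑ r, ((finite_support (L := k) (b r)).toFinset).card : ℕ) : ℤ) := by
          exact_mod_cast h1
      _ = ∑ r, (((finite_support (L := k) (b r)).toFinset.card : ℕ) : ℤ) := by push_cast; rfl
      _ ≤ _ := Finset.sum_le_sum fun r _ => DP.card_supp_le (b r)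
  set I : Finset (Fin n) := Finset.univ.filter fun l => D (x l) ≠ 0 with hI
  have hmem : ∀ l, l ∈ I ↔ D (x l) ≠ 0 := fun l => by simp [hI]
  clear_value I
  set ι : Fin I.card → Fin n := fun i => I.orderEmbOfFin rfl i with hι
  have hιinj : Function.Injective ι := (I.orderEmbOfFin rfl).injective
  have hιD : ∀ i, D (x (ι i)) ≠ 0 := by
    exact fun i => (hmem _).1 (I.orderEmbOfFin_mem rfl i)
  obtain ⟨i₁, hi₁⟩ : ∃ i, ι i = l := by
    have h5 : l ∈ Set.range (I.orderEmbOfFin rfl) := by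
      rw [Finset.range_orderEmbOfFin]
      exact (hmem l).2 hl
    exact h5
  have hpat : ∀ P ∉ sb, (∀ i, P.Ge 0 (x (ι i))) → ∀ i j,
      P.ord (x (ι i) - algebraMap k E (a (ι i) j)) = 1 →
      ∃ i' j', (i', j') ≠ (i, j) ∧ P.Ge 1 (x (ι i') - algebraMap k E (a (ι i') j')) := by
    intro P hP hreg i j hij
    have hreg' : ∀ l, P.Ge 0 (x l) := by
      intro l
      by_cases h : D (x l) = 0
      · obtain ⟨c, hc⟩ := hDc _ h
        rw [← hc]
        exact P.ge_const c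
      · have h5 : l ∈ Set.range (I.orderEmbOfFin rfl) := by
          rw [Finset.range_orderEmbOfFin]
          exact (hmem l).2 h
        obtain ⟨i', hi'⟩ := h5
        rw [← hi']
        exact hreg i'
    obtain ⟨l', j', hne, hpos⟩ := pattern hxa hb hrel hram P (hsb1 P hP) hreg' (ι i) j hij
    by_cases h : D (x l') = 0
    · exfalso
      obtain ⟨c, hc⟩ := hDc _ h
      rw [← hc, ← map_sub, P.ord_const] at hpos
      exact lt_irrefl _ hpos
    · have h5 : l' ∈ Set.range (I.orderEmbOfFin rfl) := by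
        rw [Finset.range_orderEmbOfFin]
        exact (hmem l').2 h
      obtain ⟨i', hi'⟩ := h5
      refine ⟨i', j', ?_, ?_⟩
      · intro h'
        apply hne
        rw [Prod.mk.injEq] at h'
        rw [← hi', h'.1, h'.2]
      · have h6 : x (ι i') - algebraMap k E (a (ι i') j') ≠ 0 := sub_ne_zero.2 (hxa _ _)
        rw [P.ge_iff h6]
        change 1 ≤ P.ord (x ((I.orderEmbOfFin rfl) i') - algebraMap k E (a ((I.orderEmbOfFin rfl) i') j'))
        rw [hi']
        omega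
  have hsum : (ht k (x l) : ℤ) ≤ ∑ i, (ht k (x (ι i)) : ℤ) := by
    rw [← hi₁]
    exact Finset.single_le_sum (f := fun i => (ht k (x (ι i)) : ℤ)) (fun _ _ => by positivity)
      (Finset.mem_univ i₁)
  refine hsum.trans ?_
  by_cases hn : 2 ≤ I.card
  · obtain ⟨q, m₀, m', B, hB1, hB2, hc1, hc2, Q, hQ, hQ0⟩ := hex I.card ι hn hιinj hιD
    have h5 := hHGT D cp sc sb hDk hsc hcp I.card N q m' B m₀ (fun i => a (ι i))
      (fun i => x (ι i)) (fun i => hinj _) hιD hpat hB1 hB2 Q hQ hQ0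
    refine h5.trans ?_
    have h6 : (2 * (m₀ : ℤ) + 4 * (I.card : ℤ) * m') ≤ K₁ := by exact_mod_cast hc1
    have h7 : (m' : ℤ) ≤ K₂ := by exact_mod_cast hc2
    refine add_le_add (mul_le_mul_of_nonneg_right h6 hG) ?_
    exact mul_le_mul h7 hsb2 (by positivity) (by positivity)
  · have hcard : I.card = 1 := by
      have : 0 < I.card := Fin.pos_iff_nonempty.2 ⟨i₁⟩
      omega
    obtain ⟨sn, hsn, hle⟩ := hCNT D cp sc sb hDk hsc hcp I.card N (fun i => a (ι i))
      (fun i => x (ι i)) (fun i => hinj _) hιD hpat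
    have hempty : sn = ∅ := by
      rw [Finset.eq_empty_iff_forall_notMem]
      intro P hP
      have h5 := (hsn P hP).2.2
      have h6 := Finset.card_le_univ (Is (fun i => a (ι i)) (fun i => x (ι i)) P)
      have h7 : Fintype.card (Fin I.card) = I.card := Fintype.card_fin _
      omega
    rw [hempty, Finset.sum_empty, zero_add] at hle
    have hN' : (8 : ℤ) ≤ N := by exact_mod_cast hN
    have hS : 0 ≤ ∑ i, (ht k (x (ι i)) : ℤ) := Finset.sum_nonneg fun _ _ => by positivity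
    have h8 : (I.card : ℤ) = 1 := by exact_mod_cast hcard
    have h11 : ((N : ℤ) - 6 - (I.card : ℤ)) = (N : ℤ) - 6 - 1 := by rw [h8]
    have h12 : (4 : ℤ) * (I.card : ℤ) = 4 * 1 := by rw [h8]
    rw [h11, h12] at hle
    have h7 : ∑ i, (ht k (x (ι i)) : ℤ) ≤ ((N : ℤ) - 6 - 1) * ∑ i, (ht k (x (ι i)) : ℤ) :=
      le_mul_of_one_le_left hS (by linarith)
    have h9 : (4 : ℤ) * 1 * ∑ v ∈ sc, (cp v : ℤ) ≤ K₁ * ∑ v ∈ sc, (cp v : ℤ) :=
      mul_le_mul_of_nonneg_right (by linarith) hG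
    have h10 : (1 : ℤ) * ∑ r, 2 * (ht k (b r) : ℤ) ≤ K₂ * ∑ r, 2 * (ht k (b r) : ℤ) :=
      mul_le_mul_of_nonneg_right hK2 hH
    linarith

end places

end Pool.Agent.PN
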